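import Mathlib

set_option autoImplicit false

namespace Pool.Agent.Results.MP_54b381_gt.Embed

universe u

/-- Composition of relations. -/
def comp {X : Type u} (E F : Set (X × X)) : Set (X × X) := {p | ∃ y, (p.1, y) ∈ E ∧ (y, p.2) ∈ F}

/-- Inverse of a relation. -/
def inv {X : Type u} (E : Set (X × X)) : Set (X × X) := {p | (p.2, p.1) ∈ E}

/-- Coarse structure. -/
def IsCoarse {X : Type u} (𝓔 : Set (Set (X × X))) : Prop :=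
  (∀ E ∈ 𝓔, ∀ x, (x, x) ∈ E) ∧ (∀ E ∈ 𝓔, ∀ F ∈ 𝓔, comp E F ∈ 𝓔) ∧ (∀ E ∈ 𝓔, inv E ∈ 𝓔) ∧
    ∀ E ∈ 𝓔, ∀ D : Set (X × X), (∀ x, (x, x) ∈ D) → D ⊆ E → D ∈ 𝓔

/-- Linearly ordered coarse space: connected, with compatible order. -/
def IsLOCS {X : Type u} [LinearOrder X] (𝓔 : Set (Set (X × X))) : Prop :=
  IsCoarse 𝓔 ∧ (∀ x y, ∃ E ∈ 𝓔, (x, y) ∈ E) ∧
    ∀ E ∈ 𝓔, ∃ F ∈ 𝓔, ∀ x y, x < y → (x, y) ∉ F → ∀ x', (x, x') ∈ E → x' < y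

/-- The structure has a base all of whose balls are intervals `[a,b]`. -/
def IntervalBase {X : Type u} [LinearOrder X] (𝓔 : Set (Set (X × X))) : Prop :=
  ∃ 𝓑 ⊆ 𝓔, (∀ E ∈ 𝓔, ∃ B ∈ 𝓑, E ⊆ B) ∧
    ∀ B ∈ 𝓑, ∀ x, ∃ a b, a ≤ b ∧ {y | (x, y) ∈ B} = Set.Icc a b

/-- The subspace structure on `Y`. -/
def restrict {Z : Type u} (𝓕 : Set (Set (Z × Z))) (Y : Set Z) : Set (Set (Y × Y)) :=
  {D | ∃ E ∈ 𝓕, D = {p | (p.1.1, p.2.1) ∈ E}}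

/-- Macro-uniform maps. -/
def MU {X Y : Type u} (𝓔 : Set (Set (X × X))) (𝓕 : Set (Set (Y × Y))) (f : X → Y) : Prop :=
  ∀ E ∈ 𝓔, ∃ F ∈ 𝓕, ∀ x y, (x, y) ∈ E → (f x, f y) ∈ F

variable {X : Type u} [LinearOrder X]

abbrev W (X : Type u) [LinearOrder X] := LowerSet X ×ₗ Fin 3

def A (S : Set X) : LowerSet X := ⟨{y | ∀ s ∈ S, y < s}, fun _ _ h ha s hs => h.trans_lt (ha s hs)⟩
def lo (S : Set X) : W X := toLex (A S, 1)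
def hi (S : Set X) : W X := toLex (lowerClosure S, 0)
def io (x : X) : W X := toLex (LowerSet.Iio x, 2)

lemma le_of {L M : LowerSet X} {i j : Fin 3} (h : L ≤ M) (hij : i ≤ j) :
    (toLex (L, i) : W X) ≤ toLex (M, j) := by
  rw [Prod.Lex.toLex_le_toLex]
  rcases h.lt_or_eq with h | h
  · exact Or.inl h
  · exact Or.inr ⟨h, hij⟩

lemma lo_anti {S T : Set X} (h : S ⊆ T) : lo T ≤ lo S :=
  le_of (fun _ hy s hs => hy s (h hs)) le_rfl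

lemma hi_mono {S T : Set X} (h : S ⊆ T) : hi S ≤ hi T := le_of (lowerClosure_mono h) le_rfl

lemma lo_io {S : Set X} {x : X} (h : x ∈ S) : lo S ≤ io x :=
  le_of (fun _ hy => hy x h) (by decide)

lemma io_hi {S : Set X} {x : X} (h : x ∈ S) : io x ≤ hi S := by
  rw [io, hi, Prod.Lex.toLex_le_toLex]
  left
  refine lt_of_le_of_ne (fun y hy => ⟨x, h, le_of_lt hy⟩) fun e => ?_
  have : x ∈ LowerSet.Iio x := by
    have h2 : x ∈ lowerClosure S := subset_lowerClosure h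
    simp only at e
    rwa [← e] at h2
  exact lt_irrefl x this

lemma ex_of_lt {L M : LowerSet X} (h : L < M) : ∃ y, y ∈ M ∧ y ∉ L := by
  by_contra hh
  push Not at hh
  exact not_le.2 h (fun y hy => hh y hy)

lemma lo_hi {S T : Set X} (h : lo S ≤ hi T) : ∃ a ∈ S, ∃ b ∈ T, a ≤ b := by
  rw [lo, hi, Prod.Lex.toLex_le_toLex] at h
  rcases h with h | h
  · obtain ⟨y, ⟨b, hb, hyb⟩, hy⟩ := ex_of_lt h
    have : ¬ ∀ s ∈ S, y < s := hy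
    push Not at this
    obtain ⟨a, ha, hay⟩ := this
    exact ⟨a, ha, b, hb, hay.trans hyb⟩
  · exact absurd h.2 (by simp)

lemma of_lo_io {S : Set X} {y : X} (h : lo S ≤ io y) : ∃ a ∈ S, a ≤ y := by
  have h1 : A S ≤ LowerSet.Iio y := Prod.Lex.monotone_fst _ _ h
  by_contra hh
  push Not at hh
  exact lt_irrefl y (h1 (show y ∈ A S from hh))

lemma of_io_hi {S : Set X} {y : X} (h : io y ≤ hi S) : ∃ b ∈ S, y ≤ b := by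
  rw [io, hi, Prod.Lex.toLex_le_toLex] at h
  rcases h with h | h
  · obtain ⟨t, ⟨b, hb, htb⟩, ht⟩ := ex_of_lt h
    exact ⟨b, hb, (not_lt.1 ht).trans htb⟩
  · exact absurd h.2 (by simp)

lemma io_inj : Function.Injective (io : X → W X) := by
  intro x y h
  have : LowerSet.Iio x = LowerSet.Iio y := congrArg (fun w : W X => (ofLex w).1) h
  exact Set.Iio_injective (congrArg (fun L : LowerSet X => (L : Set X)) this)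

def ball (E : Set (X × X)) (x : X) : Set X := {y | (x, y) ∈ E}

def C (E : Set (X × X)) (x : X) : Set (W X) := Set.Icc (lo (ball E x)) (hi (ball E x))

lemma C_mono {E F : Set (X × X)} {x y : X} (h : ball E x ⊆ ball F y) : C E x ⊆ C F y :=
  Set.Icc_subset_Icc (lo_anti h) (hi_mono h)

lemma hull {𝓔 : Set (Set (X × X))} (h : IsLOCS 𝓔) {E : Set (X × X)} (hE : E ∈ 𝓔) :
    ∃ H ∈ 𝓔, ∀ x a b y, (x, a) ∈ E → (x, b) ∈ E → a ≤ y → y ≤ b → (x, y) ∈ H := by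
  obtain ⟨⟨h1, h2, h3, -⟩, -, h5⟩ := h
  obtain ⟨F1, hF1, k1⟩ := h5 E hE
  obtain ⟨F2, hF2, k2⟩ := h5 _ (h3 E hE)
  refine ⟨comp F1 (comp E F2), h2 _ hF1 _ (h2 _ hE _ hF2), fun x a b y ha hb hay hyb => ?_⟩
  rcases lt_trichotomy x y with hxy | rfl | hxy
  · have : (x, y) ∈ F1 := by
      by_contra hh
      exact absurd (k1 x y hxy hh b hb) (not_lt.2 hyb)
    exact ⟨y, this, y, h1 _ hE _, h1 _ hF2 _⟩
  · exact ⟨x, h1 _ hF1 _, x, h1 _ hE _, h1 _ hF2 _⟩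
  · rcases hay.eq_or_lt with rfl | hay
    · exact ⟨x, h1 _ hF1 _, a, ha, h1 _ hF2 _⟩
    · have : (a, y) ∈ F2 := by
        by_contra hh
        exact absurd (k2 a y hay hh x ha) (not_lt.2 hxy.le)
      exact ⟨x, h1 _ hF1 _, a, ha, this⟩

lemma merge {𝓔 : Set (Set (X × X))} (h : IsLOCS 𝓔) {E F : Set (X × X)} (hE : E ∈ 𝓔) (hF : F ∈ 𝓔) :
    ∃ G ∈ 𝓔, (∀ x, ball E x ⊆ ball G x) ∧ (∀ x, ball F x ⊆ ball G x) ∧
      ∀ x x' w, w ∈ C E x → w ∈ C F x' → ball F x' ⊆ ball G x := by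
  obtain ⟨H1, hH1, k1⟩ := hull h hE
  obtain ⟨H2, hH2, k2⟩ := hull h hF
  obtain ⟨⟨h1, h2, h3, -⟩, -, -⟩ := h
  refine ⟨comp (comp H1 (inv H2)) F, h2 _ (h2 _ hH1 _ (h3 _ hH2)) _ hF, ?_, ?_, ?_⟩
  · intro x y hy
    exact ⟨y, ⟨y, k1 x y y y hy hy le_rfl le_rfl, h1 _ hH2 _⟩, h1 _ hF _⟩
  · intro x y hy
    exact ⟨x, ⟨x, h1 _ hH1 _, h1 _ hH2 _⟩, hy⟩
  · intro x x' w hw hw' y hy
    obtain ⟨a, ha, b', hb', hab'⟩ := lo_hi (hw.1.trans hw'.2)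
    obtain ⟨a', ha', b, hb, ha'b⟩ := lo_hi (hw'.1.trans hw.2)
    rcases le_total a a' with h | h
    · exact ⟨x', ⟨a', k1 x a b a' ha hb h ha'b, k2 x' a' a' a' ha' ha' le_rfl le_rfl⟩, hy⟩
    · exact ⟨x', ⟨a, k1 x a a a ha ha le_rfl le_rfl, k2 x' a' b' a ha' hb' h hab'⟩, hy⟩

def Z (𝓔 : Set (Set (X × X))) : Set (W X) := {w | ∃ E ∈ 𝓔, ∃ x, w ∈ C E x}

def hat (𝓔 : Set (Set (X × X))) (E : Set (X × X)) : Set (Z 𝓔 × Z 𝓔) :=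
  {p | p.1 = p.2 ∨ ∃ x, p.1.1 ∈ C E x ∧ p.2.1 ∈ C E x}

def FF (𝓔 : Set (Set (X × X))) : Set (Set (Z 𝓔 × Z 𝓔)) :=
  {D | (∀ z, (z, z) ∈ D) ∧ ∃ E ∈ 𝓔, D ⊆ hat 𝓔 E}

def SS (E : Set (X × X)) (w : W X) : Set X := {y | ∃ x, w ∈ C E x ∧ (x, y) ∈ E}

def til (𝓔 : Set (Set (X × X))) (E : Set (X × X)) : Set (Z 𝓔 × Z 𝓔) :=
  {p | p.1 = p.2 ∨ ((∃ x, p.1.1 ∈ C E x) ∧ lo (SS E p.1.1) ≤ p.2.1 ∧ p.2.1 ≤ hi (SS E p.1.1))}

lemma ib {𝓔 : Set (Set (X × X))} (h : IsLOCS 𝓔) : IntervalBase (FF 𝓔) := by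
  have hs : ∀ (E : Set (X × X)) (w : W X) x, w ∈ C E x → ball E x ⊆ SS E w :=
    fun E w x hw y hy => ⟨x, hw, hy⟩
  refine ⟨{B | ∃ E ∈ 𝓔, B = til 𝓔 E}, ?_, ?_, ?_⟩
  · rintro _ ⟨E, hE, rfl⟩
    obtain ⟨G, hG, g1, -, g3⟩ := merge h hE hE
    refine ⟨fun z => Or.inl rfl, G, hG, ?_⟩
    rintro ⟨z, w⟩ (h1 | ⟨⟨x, hx⟩, h1, h2⟩)
    · exact Or.inl h1
    · have : SS E z.1 ⊆ ball G x := fun y ⟨x', hx', hy⟩ => g3 x x' _ hx hx' hy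
      exact Or.inr ⟨x, C_mono (g1 x) hx, (lo_anti this).trans h1, h2.trans (hi_mono this)⟩
  · rintro D ⟨-, E, hE, hD⟩
    refine ⟨_, ⟨E, hE, rfl⟩, hD.trans ?_⟩
    rintro ⟨z, w⟩ (h1 | ⟨x, h1, h2⟩)
    · exact Or.inl h1
    · exact Or.inr ⟨⟨x, h1⟩, (lo_anti (hs E _ x h1)).trans h2.1, h2.2.trans (hi_mono (hs E _ x h1))⟩
  · rintro _ ⟨E, hE, rfl⟩ z
    by_cases hz : ∃ x, z.1 ∈ C E x
    · obtain ⟨x, hx⟩ := hz
      obtain ⟨G, hG, g1, -, g3⟩ := merge h hE hE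
      have k : SS E z.1 ⊆ ball G x := fun y ⟨x', hx', hy⟩ => g3 x x' _ hx hx' hy
      have k1 : lo (SS E z.1) ≤ z.1 := (lo_anti (hs E _ x hx)).trans hx.1
      have k2 : z.1 ≤ hi (SS E z.1) := hx.2.trans (hi_mono (hs E _ x hx))
      refine ⟨⟨lo (SS E z.1), G, hG, x, lo_anti k, (k1.trans k2).trans (hi_mono k)⟩,
        ⟨hi (SS E z.1), G, hG, x, (lo_anti k).trans (k1.trans k2), hi_mono k⟩, k1.trans k2, ?_⟩
      ext w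
      constructor
      · rintro (h1 | ⟨-, h1, h2⟩)
        · simp only at h1
          subst h1
          exact ⟨k1, k2⟩
        · exact ⟨h1, h2⟩
      · rintro ⟨h1, h2⟩
        exact Or.inr ⟨⟨x, hx⟩, h1, h2⟩
    · refine ⟨z, z, le_rfl, ?_⟩
      ext w
      rw [Set.Icc_self]
      constructor
      · rintro (h1 | ⟨h1, -⟩)
        · exact h1.symm
        · exact absurd h1 hz
      · intro h1
        exact Or.inl h1.symm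

lemma hat_mem {𝓔 : Set (Set (X × X))} {E : Set (X × X)} (hE : E ∈ 𝓔) : hat 𝓔 E ∈ FF 𝓔 :=
  ⟨fun _ => Or.inl rfl, E, hE, subset_rfl⟩

lemma locs {𝓔 : Set (Set (X × X))} (h : IsLOCS 𝓔) : IsLOCS (FF 𝓔) := by
  refine ⟨⟨fun D hD => hD.1, ?_, ?_, ?_⟩, ?_, ?_⟩
  · rintro D ⟨d1, E, hE, hD⟩ D' ⟨d2, F, hF, hD'⟩
    obtain ⟨G, hG, g1, g2, g3⟩ := merge h hE hF
    refine ⟨fun z => ⟨z, d1 z, d2 z⟩, G, hG, ?_⟩
    rintro ⟨z, u⟩ ⟨w, h1, h2⟩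
    rcases hD h1 with e | ⟨x, a1, a2⟩
    · simp only at e
      subst e
      rcases hD' h2 with e | ⟨x', b1, b2⟩
      · exact Or.inl e
      · exact Or.inr ⟨x', C_mono (g2 x') b1, C_mono (g2 x') b2⟩
    · rcases hD' h2 with e | ⟨x', b1, b2⟩
      · simp only at e
        subst e
        exact Or.inr ⟨x, C_mono (g1 x) a1, C_mono (g1 x) a2⟩
      · exact Or.inr ⟨x, C_mono (g1 x) a1, C_mono (g3 x x' _ a2 b1) b2⟩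
  · rintro D ⟨d1, E, hE, hD⟩
    refine ⟨d1, E, hE, ?_⟩
    rintro ⟨z, w⟩ h1
    rcases hD h1 with e | ⟨x, a1, a2⟩
    · exact Or.inl e.symm
    · exact Or.inr ⟨x, a2, a1⟩
  · rintro D ⟨-, E, hE, hD⟩ D' d hD'
    exact ⟨d, E, hE, hD'.trans hD⟩
  · rintro ⟨z, E, hE, x, hx⟩ ⟨w, F, hF, x', hx'⟩
    obtain ⟨K, hK, hxx⟩ := h.2.1 x x'
    obtain ⟨h1, h2, -, -⟩ := h.1
    refine ⟨_, hat_mem (h2 _ hE _ (h2 _ hK _ hF)), Or.inr ⟨x, C_mono ?_ hx, C_mono ?_ hx'⟩⟩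
    · exact fun y hy => ⟨y, hy, y, h1 _ hK _, h1 _ hF _⟩
    · exact fun y hy => ⟨x, h1 _ hE _, x', hxx, hy⟩
  · intro D hD
    obtain ⟨𝓑, b1, b2, b3⟩ := ib h
    obtain ⟨B, hB, hDB⟩ := b2 D hD
    refine ⟨B, b1 hB, fun x y hxy hy x' hx' => ?_⟩
    obtain ⟨a, b, -, e⟩ := b3 B hB x
    have k1 : x ∈ Set.Icc a b := e ▸ (b1 hB).1 x
    have k2 : x' ∈ Set.Icc a b := e ▸ hDB hx'
    have k3 : y ∉ Set.Icc a b := e ▸ hy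
    by_contra hh
    exact k3 ⟨k1.1.trans hxy.le, (not_lt.1 hh).trans k2.2⟩

theorem result (X : Type u) [LinearOrder X] (𝓔 : Set (Set (X × X))) (h : IsLOCS 𝓔) :
    ∃ (Z : Type u) (_ : LinearOrder Z) (𝓕 : Set (Set (Z × Z))), IsLOCS 𝓕 ∧ IntervalBase 𝓕 ∧
      ∃ (Y : Set Z) (f : X ≃ Y), MU 𝓔 (restrict 𝓕 Y) f ∧ MU (restrict 𝓕 Y) 𝓔 f.symm := by
  have hm : ∀ x, io x ∈ Z 𝓔 := fun x => by
    obtain ⟨E, hE, hx⟩ := h.2.1 x x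
    exact ⟨E, hE, x, lo_io hx, io_hi hx⟩
  let j : X → Z 𝓔 := fun x => ⟨io x, hm x⟩
  have hj : Function.Injective j := fun x y e => io_inj (congrArg Subtype.val e)
  refine ⟨Z 𝓔, inferInstance, FF 𝓔, locs h, ib h, Set.range j, Equiv.ofInjective j hj, ?_, ?_⟩
  · intro E hE
    refine ⟨_, ⟨_, hat_mem hE, rfl⟩, fun x y hxy => Or.inr ⟨x, ?_, ?_⟩⟩
    · exact ⟨lo_io (h.1.1 E hE x), io_hi (h.1.1 E hE x)⟩
    · exact ⟨lo_io hxy, io_hi hxy⟩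
  · rintro _ ⟨D, ⟨-, E, hE, hD⟩, rfl⟩
    obtain ⟨H, hH, k⟩ := hull h hE
    refine ⟨comp (inv H) H, h.1.2.1 _ (h.1.2.2.1 _ hH) _ hH, ?_⟩
    rintro ⟨_, y, rfl⟩ ⟨_, y', rfl⟩ hyy
    rw [Equiv.ofInjective_symm_apply, Equiv.ofInjective_symm_apply]
    rcases hD hyy with e | ⟨x, a1, a2⟩
    · have : y = y' := hj e
      subst this
      exact ⟨y, h.1.1 _ hH _, h.1.1 _ hH _⟩
    · obtain ⟨a, ha, hay⟩ := of_lo_io a1.1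
      obtain ⟨b, hb, hyb⟩ := of_io_hi a1.2
      obtain ⟨a', ha', hay'⟩ := of_lo_io a2.1
      obtain ⟨b', hb', hyb'⟩ := of_io_hi a2.2
      exact ⟨x, k x a b y ha hb hay hyb, k x a' b' y' ha' hb' hay' hyb'⟩

end Pool.Agent.Results.MP_54b381_gt.Embed
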